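import Pool.Agent.Lib.MP_89e789_an.Growth

open Matrix Pool.Agent.Lib.MP_89e789_an

/-- **The optimal threshold is of exact order `CR · C^(2α/(2α-1))` for `1/2 < α ≤ 1`.**
With `C^(2α) ≥ 8`: at least `3 · 6^(2(1-α)/(2α-1)) · CR · C^(2α/(2α-1))` smoothing steps give
contraction with factor `1/2`, while for at most
`(1/2) · (1/4)^(1/(2α-1)) · CR · C^(2α/(2α-1))` smoothing steps the V-cycle error operators of
admissible hierarchies are unbounded. -/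
theorem Pool.Agent.Results.MP_89e789_an.Growth.result :
    ∀ α CR C : ℝ, 1 / 2 < α → α ≤ 1 → 1 ≤ CR → 0 < C → 8 ≤ C ^ (2 * α) → ∀ m : ℕ,
      (3 * (6 : ℝ) ^ (2 * (1 - α) / (2 * α - 1)) * CR * C ^ (2 * α / (2 * α - 1)) ≤ m →
        ∀ (H : Hierarchy) (L : ℕ), H.Admissible L CR C α → ∀ v : Fin (H.n L) → ℝ,
          energyNorm (H.A L) (H.E m 1 L *ᵥ v) ≤ (1 / 2) * energyNorm (H.A L) v) ∧
      ((m : ℝ) ≤ 1 / 2 * (1 / 4 : ℝ) ^ (1 / (2 * α - 1)) * CR * C ^ (2 * α / (2 * α - 1)) →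
        ∀ M : ℝ, ∃ (H : Hierarchy) (L : ℕ), H.Admissible L CR C α ∧
          ∃ v : Fin (H.n L) → ℝ,
            M * energyNorm (H.A L) v < energyNorm (H.A L) (H.E m 1 L *ᵥ v)) :=
  fun _ _ _ hα hα1 hCR hC hC8 m =>
    ⟨fun hm H L hH v => growth_upper hα hα1 hC hC8 m hm H L hH v,
      fun hm M => growth_lower hα hα1 hCR hC hC8 m hm M⟩
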