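import Pool.Agent.Lib.MP_89e789_an.Main

open Matrix Pool.Agent.Lib.MP_89e789_an

/-- **Answer to Q1 (disproof), with the complete picture away from one critical value.**

* There is no threshold function `m₀(CR, C, α)` as asked for in Q1.
* For `0 < α ≤ 1/2` put `critical α = 2/(1-α) · ((1-2α)/(2-2α))^(1-2α)` (so `critical (1/2) = 4`).
  If `C^(4α) > critical α` then, for every `CR ≥ 1` and EVERY number `m` of smoothing steps, the
  norms `‖E_L‖_{A_L}` over all admissible hierarchies are unbounded.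
* If `1/2 < α ≤ 1` (any `C`), or `C^(4α) < critical α`, a finite threshold exists. -/
theorem Pool.Agent.Results.MP_89e789_an.Threshold.result :
    (¬ ∃ m₀ : ℝ → ℝ → ℝ → ℕ, ∀ CR C α : ℝ, 1 ≤ CR → 0 < C → 0 < α → α ≤ 1 →
        ∀ m : ℕ, m₀ CR C α ≤ m → UniformVCycleContraction CR C α m) ∧
    (∀ CR C α : ℝ, 1 ≤ CR → 0 < C → 0 < α → α ≤ 1 / 2 → critical α < C ^ (4 * α) →
        ∀ (m : ℕ) (M : ℝ), ∃ (H : Hierarchy) (L : ℕ), H.Admissible L CR C α ∧
          ∃ v : Fin (H.n L) → ℝ,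
            M * energyNorm (H.A L) v < energyNorm (H.A L) (H.E m 1 L *ᵥ v)) ∧
    (∀ CR C α : ℝ, 1 ≤ CR → 0 < C → 0 < α → α ≤ 1 → (1 / 2 < α ∨ C ^ (4 * α) < critical α) →
        ∃ m₀ : ℕ, ∀ m : ℕ, m₀ ≤ m → UniformVCycleContraction CR C α m) := by
  refine ⟨?_, ?_, ?_⟩
  · rintro ⟨m₀, hm₀⟩
    obtain ⟨δ, hδ, hcon⟩ := hm₀ 1 4 (1 / 2) le_rfl (by norm_num) (by norm_num) (by norm_num)
      (m₀ 1 4 (1 / 2)) le_rfl
    obtain ⟨H, L, hH, v, hv⟩ := no_threshold (CR := 1) (C := 4) (α := 1 / 2) le_rfl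
      (by norm_num) (by norm_num) le_rfl (by rw [critical_half]; norm_num) (m₀ 1 4 (1 / 2)) δ
    exact absurd (hcon H L hH v) (not_le.mpr hv)
  · intro CR C α hCR hC hα hα2 hcrit m M
    exact no_threshold hCR hC hα hα2 hcrit m M
  · intro CR C α _ hC hα hα1 h
    obtain ⟨t, ht, hlim⟩ := exists_t hα hα1 hC h
    exact threshold_of_t hα hα1 hC ht hlim
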